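import Mathlib

/-!
# Logically equivalent states that are not related by any `⊕`-bisimulation

For every nonempty set `L` of labels there are labelled Markov processes `S`, `S'` and states `s`, `s'` which satisfy the same
formulas and which no `⊕`-bisimulation relates.

Construction. Let `M` and `N` be disjoint sets of reals, both of full outer Lebesgue measure in the unit interval. The states of the
first process are `s` and the points of `M`, the states of the second one are `s'` and the points of `N`; from `s` one goes to a random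
point of `M` (with the trace of the Lebesgue measure) and from a point `u` one goes back to `s` with probability `u`. Formulas
describe Borel sets only and cannot distinguish `s` from `s'`, but the total masses show that no point of `M` is related to a state of
the other process, so that `M` is closed.
-/

set_option autoImplicit false

open MeasureTheory Set
open scoped ENNReal Topology Pointwise

namespace Pool.Agent.Results.MP_e518dc_lc.NoSumBisimulation

/-- A labelled Markov process with label set `L` on the measurable space `S`. -/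
structure LMP (L S : Type) [MeasurableSpace S] where
  /-- the kernels -/
  τ : L → S → Measure S
  sub : ∀ a s, τ a s univ ≤ 1
  meas : ∀ a X, MeasurableSet X → Measurable fun s => τ a s X

/-- The formulas of the logic. -/
inductive Formula (L : Type) : Type
  | top : Formula L
  | and : Formula L → Formula L → Formula L
  | dia : L → Icc (0 : ℚ) 1 → Formula L → Formula L

/-- Satisfaction of a formula at a state. -/
def Sat {L S : Type} [MeasurableSpace S] (M : LMP L S) : Formula L → S → Prop
  | .top, _ => True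
  | .and φ ψ, s => Sat M φ s ∧ Sat M ψ s
  | .dia a q φ, s => ENNReal.ofReal (q.1 : ℝ) ≤ M.τ a s {t | Sat M φ t}

/-- `s` and `s'` satisfy the same formulas. -/
def LogicallyEquivalent {L S S' : Type} [MeasurableSpace S] [MeasurableSpace S'] (M : LMP L S) (M' : LMP L S') (s : S) (s' : S') :
    Prop :=
  ∀ φ : Formula L, Sat M φ s ↔ Sat M' φ s'

/-- The kernels of the sum of two processes. (The measurable sets of `S ⊕ S'` are the sets `Q ⊕ Q'` with measurable `Q`, `Q'`.) -/
noncomputable def sumKernel {L S S' : Type} [MeasurableSpace S] [MeasurableSpace S'] (M : LMP L S) (M' : LMP L S') (a : L) :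
    S ⊕ S' → Set (S ⊕ S') → ℝ≥0∞
  | .inl s, A => M.τ a s (Sum.inl ⁻¹' A)
  | .inr s', A => M'.τ a s' (Sum.inr ⁻¹' A)

/-- Every point related by `R` (in either direction) to a point of `A` lies in `A`. -/
def IsRelClosed {X : Type} (R : X → X → Prop) (A : Set X) : Prop := ∀ x ∈ A, ∀ y, (R x y ∨ R y x) → y ∈ A

/-- `R` is a `⊕`-bisimulation between `M` and `M'`. -/
def IsSumBisimulation {L S S' : Type} [MeasurableSpace S] [MeasurableSpace S'] (M : LMP L S) (M' : LMP L S')
    (R : S ⊕ S' → S ⊕ S' → Prop) : Prop :=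
  Equivalence R ∧ ∀ x y, R x y → x.isLeft ≠ y.isLeft →
    ∀ (a : L) (A : Set (S ⊕ S')), MeasurableSet A → IsRelClosed R A → sumKernel M M' a x A = sumKernel M M' a y A

/-! ### Two complementary thick sets -/

/-- the numbers `a / 3 ^ n` with `a` odd -/
def Odd3 (x : ℝ) : Prop := ∃ (a : ℤ) (n : ℕ), Odd a ∧ x * 3 ^ n = a

/-- the numbers `a / 3 ^ n` with `a` even -/
def Even3 (x : ℝ) : Prop := ∃ (a : ℤ) (n : ℕ), Even a ∧ x * 3 ^ n = a

lemma not_both {x : ℝ} (h1 : Odd3 x) (h2 : Even3 x) : False := by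
  obtain ⟨a, n, ha, e1⟩ := h1
  obtain ⟨b, m, hb, e2⟩ := h2
  have h : a * 3 ^ m = b * 3 ^ n := by
    have : (a : ℝ) * 3 ^ m = b * 3 ^ n := by rw [← e1, ← e2]; ring
    exact_mod_cast this
  have h1 : Odd (a * 3 ^ m) := ha.mul (Odd.pow (by decide))
  have h2 : Even (b * 3 ^ n) := hb.mul_right _
  rw [h] at h1
  exact (Int.not_even_iff_odd.2 h1) h2

lemma odd_add {x : ℝ} (k : ℕ) (h : Odd3 x) : Even3 (x + (1 / 3) ^ k) := by
  obtain ⟨a, n, ha, e⟩ := h
  refine ⟨a * 3 ^ k + 3 ^ n, n + k, ?_, ?_⟩
  · exact Odd.add_odd (ha.mul (Odd.pow (by decide))) (Odd.pow (by decide))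
  · push_cast
    rw [← e, add_mul, pow_add]
    have : (1 / 3 : ℝ) ^ k * (3 ^ n * 3 ^ k) = 3 ^ n := by
      rw [mul_comm (3 ^ n : ℝ), ← mul_assoc, ← mul_pow]; norm_num
    rw [this]; ring

lemma even_add {x : ℝ} (k : ℕ) (h : Even3 x) : Odd3 (x + (1 / 3) ^ k) := by
  obtain ⟨a, n, ha, e⟩ := h
  refine ⟨a * 3 ^ k + 3 ^ n, n + k, ?_, ?_⟩
  · exact Even.add_odd (ha.mul_right _) (Odd.pow (by decide))
  · push_cast
    rw [← e, add_mul, pow_add]
    have : (1 / 3 : ℝ) ^ k * (3 ^ n * 3 ^ k) = 3 ^ n := by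
      rw [mul_comm (3 ^ n : ℝ), ← mul_assoc, ← mul_pow]; norm_num
    rw [this]; ring

/-- the group of the numbers `a / 3 ^ n` -/
def G3 : AddSubgroup ℝ where
  carrier := {x | ∃ (a : ℤ) (n : ℕ), x * 3 ^ n = a}
  zero_mem' := ⟨0, 0, by simp⟩
  add_mem' := by
    rintro x y ⟨a, n, e⟩ ⟨b, m, f⟩
    refine ⟨a * 3 ^ m + b * 3 ^ n, n + m, ?_⟩
    push_cast
    rw [← e, ← f, pow_add]; ring
  neg_mem' := by
    rintro x ⟨a, n, e⟩
    exact ⟨-a, n, by push_cast; rw [← e]; ring⟩

lemma mem_G3 {x : ℝ} : x ∈ G3 ↔ Odd3 x ∨ Even3 x := by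
  constructor
  · rintro ⟨a, n, e⟩
    rcases Int.even_or_odd a with h | h
    · exact Or.inr ⟨a, n, h, e⟩
    · exact Or.inl ⟨a, n, h, e⟩
  · rintro (⟨a, n, -, e⟩ | ⟨a, n, -, e⟩)
    · exact ⟨a, n, e⟩
    · exact ⟨a, n, e⟩

/-- a representative of the class of `x` modulo `G3` -/
noncomputable def rep (x : ℝ) : ℝ := (QuotientAddGroup.mk x : ℝ ⧸ G3).out

lemma sub_rep (x : ℝ) : x - rep x ∈ G3 := by
  have h : (QuotientAddGroup.mk (rep x) : ℝ ⧸ G3) = QuotientAddGroup.mk x := by
    unfold rep
    exact Quotient.out_eq' _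
  have := QuotientAddGroup.eq.1 h
  have h2 : x - rep x = -rep x + x := by ring
  rw [h2]
  exact this

lemma rep_add (x : ℝ) (k : ℕ) : rep (x + (1 / 3) ^ k) = rep x := by
  unfold rep
  congr 1
  refine (QuotientAddGroup.eq.2 ?_).symm
  refine ⟨1, k, ?_⟩
  rw [neg_add_cancel_left, ← mul_pow]; norm_num

/-- the first thick set -/
def M0 : Set ℝ := {x | Odd3 (x - rep x)}

lemma flip (x : ℝ) (k : ℕ) : x + (1 / 3) ^ k ∈ M0 ↔ x ∉ M0 := by
  have e : x + (1 / 3) ^ k - rep (x + (1 / 3) ^ k) = (x - rep x) + (1 / 3) ^ k := by rw [rep_add]; ring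
  unfold M0
  rw [mem_ofPred_eq, mem_ofPred_eq, e]
  constructor
  · intro h1 h2
    exact not_both h1 (odd_add k h2)
  · intro h
    rcases mem_G3.1 (sub_rep x) with h1 | h1
    · exact absurd h1 h
    · exact even_add k h1

/-- `A` is thick: it has full outer measure. -/
def Thick (A : Set ℝ) : Prop := ∀ B : Set ℝ, MeasurableSet B → volume (A ∩ B) = volume B

lemma thick_of (A : Set ℝ) (hA : ∀ x ∉ A, ∀ k : ℕ, x + (1 / 3) ^ k ∈ A) : Thick A := by
  intro B hB
  apply le_antisymm (measure_mono inter_subset_right)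
  set H := toMeasurable volume (A ∩ B) with hH
  have hHm : MeasurableSet H := measurableSet_toMeasurable _ _
  have hz : volume (B \ H) = 0 := by
    by_contra hne
    have hpos : 0 < volume (B \ H) := pos_iff_ne_zero.2 hne
    have hn := Measure.sub_mem_nhds_zero_of_addHaar_pos volume (B \ H) (hB.diff hHm) hpos
    have ht : Filter.Tendsto (fun k : ℕ => ((1 : ℝ) / 3) ^ k) Filter.atTop (𝓝 0) :=
      tendsto_pow_atTop_nhds_zero_of_lt_one (by norm_num) (by norm_num)
    obtain ⟨k, hk⟩ := (ht.eventually hn).exists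
    obtain ⟨y, hy, x, hx, hxy⟩ := hk
    have hxA : x ∉ A := fun h => hx.2 (subset_toMeasurable _ _ ⟨h, hx.1⟩)
    have hyA : y ∉ A := fun h => hy.2 (subset_toMeasurable _ _ ⟨h, hy.1⟩)
    apply hyA
    have : y = x + (1 / 3) ^ k := by
      have : y - x = (1 / 3) ^ k := hxy
      linarith
    rw [this]
    exact hA x hxA k
  calc volume B ≤ volume (H ∪ (B \ H)) := measure_mono (by intro z hz; by_cases h : z ∈ H <;> simp [h, hz])
    _ ≤ volume H + volume (B \ H) := measure_union_le _ _
    _ = volume (A ∩ B) := by rw [hz, add_zero, hH, measure_toMeasurable]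

lemma thick_M0 : Thick M0 := thick_of M0 fun x hx k => (flip x k).2 hx

lemma thick_N0 : Thick M0ᶜ := thick_of _ fun x hx k h => (flip x k).1 h (not_not.1 hx)

/-! ### The processes -/

/-- the points of `A` in the open unit interval -/
abbrev Pts (A : Set ℝ) : Type := {x : ℝ // x ∈ A ∧ 0 < x ∧ x < 1}

/-- the outer trace of the Lebesgue measure -/
noncomputable def lamO (A : Set ℝ) : OuterMeasure (Pts A) := OuterMeasure.comap Subtype.val (volume : Measure ℝ).toOuterMeasure

lemma lamO_apply (A : Set ℝ) (X : Set (Pts A)) : lamO A X = volume (Subtype.val '' X) := rfl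

lemma lamO_car (A : Set ℝ) : (inferInstance : MeasurableSpace (Pts A)) ≤ (lamO A).caratheodory := by
  rintro X ⟨B, hB, rfl⟩
  intro T
  rw [lamO_apply, lamO_apply, lamO_apply]
  have e1 : Subtype.val '' (T ∩ Subtype.val ⁻¹' B) = (Subtype.val '' T : Set ℝ) ∩ B := image_inter_preimage _ _ _
  have e2 : Subtype.val '' (T \ Subtype.val ⁻¹' B) = (Subtype.val '' T : Set ℝ) \ B := by
    ext z
    constructor
    · rintro ⟨w, ⟨h1, h2⟩, rfl⟩
      exact ⟨⟨w, h1, rfl⟩, h2⟩
    · rintro ⟨⟨w, h1, rfl⟩, h2⟩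
      exact ⟨w, ⟨h1, h2⟩, rfl⟩
  rw [e1, e2]
  exact (measure_inter_add_sdiff _ hB).symm

/-- the trace of the Lebesgue measure -/
noncomputable def lam (A : Set ℝ) : Measure (Pts A) := (lamO A).toMeasure (lamO_car A)

lemma lam_apply {A : Set ℝ} (hA : Thick A) (B : Set ℝ) (hB : MeasurableSet B) :
    lam A (Subtype.val ⁻¹' B) = volume (Ioo (0 : ℝ) 1 ∩ B) := by
  unfold lam
  rw [toMeasure_apply _ _ (measurable_subtype_coe hB), lamO_apply]
  rw [← hA (Ioo 0 1 ∩ B) (measurableSet_Ioo.inter hB)]
  congr 1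
  ext z
  constructor
  · rintro ⟨w, hw, rfl⟩
    exact ⟨w.2.1, ⟨w.2.2.1, w.2.2.2⟩, hw⟩
  · rintro ⟨h1, ⟨h2, h3⟩, h4⟩
    exact ⟨⟨z, h1, h2, h3⟩, h4, rfl⟩

lemma lam_univ {A : Set ℝ} (hA : Thick A) : lam A univ = 1 := by
  have := lam_apply hA univ MeasurableSet.univ
  rw [preimage_univ, inter_univ, Real.volume_Ioo] at this
  rw [this]; norm_num

/-- the transition measures -/
noncomputable def ker (A : Set ℝ) : Unit ⊕ Pts A → Measure (Unit ⊕ Pts A)
  | .inl _ => Measure.map Sum.inr (lam A)
  | .inr u => ENNReal.ofReal u.1 • Measure.dirac (Sum.inl ())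

/-- the process; all labels have the same kernel -/
noncomputable def proc (L : Type) (A : Set ℝ) (hA : Thick A) : LMP L (Unit ⊕ Pts A) where
  τ _ := ker A
  sub _ s := by
    rcases s with s | u
    · simp only [ker]
      rw [Measure.map_apply measurable_inr MeasurableSet.univ, preimage_univ, lam_univ hA]
    · simp only [ker]
      rw [Measure.smul_apply, measure_univ, smul_eq_mul, mul_one]
      exact ENNReal.ofReal_le_one.2 u.2.2.2.le
  meas _ X hX := by
    have : (fun s => ker A s X) = Sum.elim (fun _ => ker A (Sum.inl ()) X)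
        (fun u : Pts A => ENNReal.ofReal u.1 * Measure.dirac (Sum.inl () : Unit ⊕ Pts A) X) := by
      funext s
      rcases s with s | u
      · rfl
      · simp [ker]
    rw [this]
    refine Measurable.sumElim measurable_const ?_
    exact (measurable_subtype_coe.ennreal_ofReal).mul_const _

lemma sat_iff (L : Type) (φ : Formula L) : ∃ (c : Prop) (B : Set ℝ), MeasurableSet B ∧
    ∀ (A : Set ℝ) (hA : Thick A), (Sat (proc L A hA) φ (Sum.inl ()) ↔ c) ∧
      ∀ u : Pts A, Sat (proc L A hA) φ (Sum.inr u) ↔ u.1 ∈ B := by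
  classical
  induction φ with
  | top => exact ⟨True, univ, MeasurableSet.univ, fun A hA => ⟨by simp [Sat], fun u => by simp [Sat]⟩⟩
  | and φ ψ h1 h2 =>
    obtain ⟨c1, B1, m1, k1⟩ := h1
    obtain ⟨c2, B2, m2, k2⟩ := h2
    refine ⟨c1 ∧ c2, B1 ∩ B2, m1.inter m2, fun A hA => ⟨?_, fun u => ?_⟩⟩
    · exact and_congr (k1 A hA).1 (k2 A hA).1
    · exact and_congr ((k1 A hA).2 u) ((k2 A hA).2 u)
  | dia a q φ h =>
    obtain ⟨c, B, m, k⟩ := h
    refine ⟨ENNReal.ofReal (q.1 : ℝ) ≤ volume (Ioo (0 : ℝ) 1 ∩ B),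
      {x | ENNReal.ofReal (q.1 : ℝ) ≤ ENNReal.ofReal x * (if c then 1 else 0)}, ?_, fun A hA => ⟨?_, fun u => ?_⟩⟩
    · exact measurableSet_le measurable_const (ENNReal.measurable_ofReal.mul_const _)
    · change ENNReal.ofReal (q.1 : ℝ) ≤ ker A (Sum.inl ()) {t | Sat (proc L A hA) φ t} ↔ _
      have hm : MeasurableSet {t | Sat (proc L A hA) φ t} := by
        rw [measurableSet_sum_iff]
        constructor
        · exact MeasurableSet.of_discrete
        · have : (Sum.inr ⁻¹' {t | Sat (proc L A hA) φ t} : Set (Pts A)) = Subtype.val ⁻¹' B := by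
            ext u
            exact (k A hA).2 u
          rw [this]
          exact measurable_subtype_coe m
      have e : ker A (Sum.inl ()) {t | Sat (proc L A hA) φ t} = volume (Ioo (0 : ℝ) 1 ∩ B) := by
        simp only [ker]
        rw [Measure.map_apply measurable_inr hm, ← lam_apply hA B m]
        congr 1
        ext u
        exact (k A hA).2 u
      rw [e]
    · change ENNReal.ofReal (q.1 : ℝ) ≤ ker A (Sum.inr u) {t | Sat (proc L A hA) φ t} ↔ _
      have hm : MeasurableSet {t | Sat (proc L A hA) φ t} := by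
        rw [measurableSet_sum_iff]
        constructor
        · exact MeasurableSet.of_discrete
        · have : (Sum.inr ⁻¹' {t | Sat (proc L A hA) φ t} : Set (Pts A)) = Subtype.val ⁻¹' B := by
            ext u
            exact (k A hA).2 u
          rw [this]
          exact measurable_subtype_coe m
      have e : ker A (Sum.inr u) {t | Sat (proc L A hA) φ t} = ENNReal.ofReal u.1 * (if c then 1 else 0) := by
        simp only [ker]
        rw [Measure.smul_apply, Measure.dirac_apply' _ hm, smul_eq_mul]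
        congr 1
        by_cases hc : c
        · rw [if_pos hc, indicator_of_mem]
          · rfl
          · exact (k A hA).1.2 hc
        · rw [if_neg hc, indicator_of_notMem]
          intro h
          exact hc ((k A hA).1.1 h)
      rw [e]
      rfl

/-- **Theorem.** The answer is no, for every nonempty set of labels. -/
theorem result (L : Type) [Nonempty L] :
    ∃ (S S' : Type) (_ : MeasurableSpace S) (_ : MeasurableSpace S') (M : LMP L S) (M' : LMP L S') (s : S) (s' : S'),
      LogicallyEquivalent M M' s s' ∧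
        ¬ ∃ R : S ⊕ S' → S ⊕ S' → Prop, IsSumBisimulation M M' R ∧ R (Sum.inl s) (Sum.inr s') := by
  refine ⟨Unit ⊕ Pts M0, Unit ⊕ Pts M0ᶜ, inferInstance, inferInstance, proc L M0 thick_M0, proc L M0ᶜ thick_N0, Sum.inl (),
    Sum.inl (), ?_, ?_⟩
  · intro φ
    obtain ⟨c, B, -, k⟩ := sat_iff L φ
    rw [(k _ thick_M0).1, (k _ thick_N0).1]
  · rintro ⟨R, ⟨hR, hb⟩, hs⟩
    obtain ⟨a⟩ := ‹Nonempty L›
    -- total masses
    have mass1 : ∀ (A : Set ℝ) (hA : Thick A), ker A (Sum.inl ()) univ = 1 := by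
      intro A hA
      simp only [ker]
      rw [Measure.map_apply measurable_inr MeasurableSet.univ, preimage_univ, lam_univ hA]
    have mass2 : ∀ (A : Set ℝ) (u : Pts A), ker A (Sum.inr u) univ = ENNReal.ofReal u.1 := by
      intro A u
      simp only [ker]
      rw [Measure.smul_apply, measure_univ, smul_eq_mul, mul_one]
    have hcl : IsRelClosed R univ := fun _ _ _ _ => mem_univ _
    have hlt : ∀ (A : Set ℝ) (u : Pts A), ENNReal.ofReal u.1 ≠ 1 := by
      intro A u
      rw [← ENNReal.ofReal_one]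
      intro h
      have := (ENNReal.ofReal_eq_ofReal_iff u.2.2.1.le zero_le_one).1 h
      linarith [u.2.2.2]
    -- no point of the first set is related to the other process
    have key1 : ∀ u : Pts M0, ¬ R (Sum.inl (Sum.inr u)) (Sum.inr (Sum.inl ())) := by
      intro u h
      have := hb _ _ h (by simp) a univ MeasurableSet.univ hcl
      have h2 : ker M0 (Sum.inr u) univ = ker M0ᶜ (Sum.inl ()) univ := this
      rw [mass1 _ thick_N0, mass2] at h2
      exact hlt _ u h2
    have key2 : ∀ (u : Pts M0) (v : Pts M0ᶜ), ¬ R (Sum.inl (Sum.inr u)) (Sum.inr (Sum.inr v)) := by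
      intro u v h
      have := hb _ _ h (by simp) a univ MeasurableSet.univ hcl
      have h2 : ker M0 (Sum.inr u) univ = ker M0ᶜ (Sum.inr v) univ := this
      rw [mass2, mass2] at h2
      have h3 := (ENNReal.ofReal_eq_ofReal_iff u.2.2.1.le v.2.2.1.le).1 h2
      exact v.2.1 (h3 ▸ u.2.1)
    let A0 : Set ((Unit ⊕ Pts M0) ⊕ (Unit ⊕ Pts M0ᶜ)) := {x | ∃ u : Pts M0, x = Sum.inl (Sum.inr u)}
    have pre1 : (Sum.inl ⁻¹' A0 : Set (Unit ⊕ Pts M0)) = Sum.inr '' univ := by
      ext x
      constructor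
      · rintro ⟨u, hu⟩
        exact ⟨u, mem_univ _, (Sum.inl_injective hu).symm⟩
      · rintro ⟨u, -, rfl⟩
        exact ⟨u, rfl⟩
    have pre2 : (Sum.inr ⁻¹' A0 : Set (Unit ⊕ Pts M0ᶜ)) = ∅ := by
      ext x
      constructor
      · rintro ⟨u, hu⟩
        cases hu
      · intro h
        exact absurd h (notMem_empty _)
    have hA0 : MeasurableSet A0 := by
      rw [measurableSet_sum_iff]
      rw [pre1, pre2]
      exact ⟨MeasurableSet.univ.inr_image, MeasurableSet.empty⟩
    have hA0c : IsRelClosed R A0 := by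
      rintro x ⟨u, rfl⟩ y hy
      have hy : R (Sum.inl (Sum.inr u)) y := hy.elim id fun h => hR.symm h
      rcases y with (y | v) | (y | v)
      · exact absurd (hR.trans hy hs) (key1 u)
      · exact ⟨v, rfl⟩
      · exact absurd hy (key1 u)
      · exact absurd hy (key2 u v)
    have h := hb _ _ hs (by simp) a A0 hA0 hA0c
    have h2 : ker M0 (Sum.inl ()) (Sum.inl ⁻¹' A0) = ker M0ᶜ (Sum.inl ()) (Sum.inr ⁻¹' A0) := h
    rw [pre1, pre2, measure_empty] at h2
    simp only [ker] at h2
    rw [Measure.map_apply measurable_inr MeasurableSet.univ.inr_image, preimage_image_eq _ Sum.inr_injective,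
      lam_univ thick_M0] at h2
    exact one_ne_zero h2

end Pool.Agent.Results.MP_e518dc_lc.NoSumBisimulation
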